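import Mathlib

namespace Pool.Agent.U170.B7

/-- `A` is an arc in the plane from `x` to `y`: the image of an injective continuous map of the unit
interval that starts in `x` and ends in `y`. -/
def IsArcBetween (A : Set (ℝ × ℝ)) (x y : ℝ × ℝ) : Prop :=
  ∃ γ : ℝ → ℝ × ℝ, ContinuousOn γ (Set.Icc 0 1) ∧ Set.InjOn γ (Set.Icc 0 1) ∧ γ 0 = x ∧ γ 1 = y ∧
    γ '' Set.Icc 0 1 = A

/-- `G` is planar: its vertices can be placed at distinct points `p x` of the plane and its edges drawn
as arcs `A s(a,b)` from `p a` to `p b` that contain no further vertex, such that every common point of the arcs of two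
different edges is a vertex. -/
def IsPlanar {V : Type*} (G : SimpleGraph V) : Prop :=
  ∃ (p : V → ℝ × ℝ) (A : Sym2 V → Set (ℝ × ℝ)), Function.Injective p ∧
    (∀ a b, G.Adj a b → IsArcBetween (A s(a, b)) (p a) (p b)) ∧
    (∀ a b c, G.Adj a b → p c ∈ A s(a, b) → c = a ∨ c = b) ∧
    (∀ a b c d, G.Adj a b → G.Adj c d → s(a, b) ≠ s(c, d) →
      ∀ x ∈ A s(a, b) ∩ A s(c, d), ∃ e, x = p e)

/-- `G` is 4-connected: it has at least five vertices and stays connected after the deletion of any set
of at most three vertices. -/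
def IsFourConnected {V : Type*} [Fintype V] (G : SimpleGraph V) : Prop :=
  5 ≤ Fintype.card V ∧ ∀ S : Finset V, S.card ≤ 3 → (G.induce {x | x ∉ S}).Connected

end Pool.Agent.U170.B7
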