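import Mathlib

set_option maxRecDepth 100000

namespace Pool.Agent.U170.B7


/-- adjacency bits of the 69-vertex graph -/
def MM : ℕ := 0x659659659659000003c0000000000000006b0000000000000003a0000000001000000a80000000000100006a00000000000000052040000000000000003c0000000000000102b0000000000000081a1000000000000000a80000000002000006a00000000000001052000000000000000003c0000000000004002b0000000000002011a0000000000000000a80000000008000006a00000000000040012040000000000000003c0000000000100002b0000000000080001a1000000000000000a80000000100000006a00000000001000052000000000000000003c0000000004000002b0000000002000011a0000000000000000a80000000400000006a00000000040000012040000000000000003c0000000100000002b0000000080000001a1000000000000000a80000008000000006a00000001000000052000000000000000003c0000004000000002b0000002000000011a0000000000000000a80000020000000006a00000040000000012040000000000000003c0000100000000002b0000090000000001a0000000000000000a80000400000000006a0000100000000005200000000000000000350000000000000002c0040000000000001b0000100000000000680000020000000005800000000000000000d4000000000000010b00000000000000006c0000008000000001a0000000100000001600000000000000000350000000000000042c0000000000000001b0000000040000000680000000008000005800000000000004000d0000000000000010b00000000000000006c0000000002000001a00000000000400016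

/-- neighbour lists without the vertex 68, five slots of seven bits -/
def NB : ℕ := 0x870a0c07f0a1c17efa0c38500bc08705f907f0e1407cf9f427ee1ebc76e9cbc7aedcb876f5e3a6ae9ebb723dcbd78e9c3870f9e396ed9ab466d9bb566c9abb6ed9a346ed598b66ddb3464c993666b18b05eb96b062bd6ac5ec582e52b98af5a296b160b962c58c982d56a94a84ea95a94e994af56a942856a53864ead5284c9932a4e812a446890a44a8d0a046952223a892a342150a5488902040992213e78e9c3678f9d3668ea33e78e1c3e74d81367cf1c3468d1e3650c982e58a98325ca942f04c982c58c972a00a993058a142868c15264888f1a4899120108932440790804888f1ee8991203868c14206931c3058c1c3458a16d068c142970e182c4880e141881c243860e244060a194080e142a2121c304240c10006242020208203020009c06080002c10101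

/-- first coordinates, eleven bits each -/
def BX : ℕ := 0x20d40e829099fe40a818f11f03ca72cf39fa36e75ce7182378784e19dd3b4640e31e34268410421d4288551ca2946a9351a21f4c490d272994bc8e12ba3c480a2d2a2361a08f8cc9d630a2280d090184371a49dc4fe9154ab907fae25abb3f

/-- second coordinates, eleven bits each -/
def BY : ℕ := 0x20e36e758e6180376784e19de3b263ce29e542284504a1c42a8551ba2946c935192204c6911272984bc8e12c23c482a312aa3640e825091fe408818f11f13ca730f39fc11406c480c11b6d2cee27f486a5dc7bfe714d5d9f8d047e66ceb185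

/-- the edges -/
def El : List (ℕ × ℕ) := [(0, 1), (0, 2), (0, 4), (0, 22), (1, 2), (1, 3), (1, 28), (2, 3), (2, 4), (3, 4), (3, 9), (4, 18), (5, 6), (5, 7), (5, 9), (5, 34), (6, 7), (6, 8), (6, 40), (7, 8), (7, 9), (8, 9), (8, 14), (10, 11), (10, 12), (10, 14), (10, 46), (11, 12), (11, 13), (11, 52), (12, 13), (12, 14), (13, 14), (13, 19), (15, 16), (15, 17), (15, 19), (15, 58), (16, 17), (16, 18), (16, 64), (17, 18), (17, 19), (18, 19), (20, 21), (20, 24), (20, 26), (20, 68), (21, 22), (21, 24), (21, 25), (22, 23), (22, 25), (23, 24), (23, 25), (23, 65), (23, 68), (24, 25), (24, 68), (26, 27), (26, 30), (26, 68), (27, 28), (27, 30), (27, 31), (28, 29), (28, 31), (29, 30), (29, 31), (29, 35), (29, 68), (30, 31), (30, 68), (32, 33), (32, 36), (32, 38), (32, 68), (33, 34), (33, 36), (33, 37), (34, 35), (34, 37), (35, 36), (35, 37), (35, 68), (36, 37), (36, 68), (38, 39), (38, 42), (38, 68), (39, 40), (39, 42), (39, 43), (40, 41), (40, 43),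 (41, 42), (41, 43), (41, 47), (41, 68), (42, 43), (42, 68), (44, 45), (44, 48), (44, 50), (44, 68), (45, 46), (45, 48), (45, 49), (46, 47), (46, 49), (47, 48), (47, 49), (47, 68), (48, 49), (48, 68), (50, 51), (50, 54), (50, 68), (51, 52), (51, 54), (51, 55), (52, 53), (52, 55), (53, 54), (53, 55), (53, 59), (53, 68), (54, 55), (54, 68), (56, 57), (56, 60), (56, 62), (56, 68), (57, 58), (57, 60), (57, 61), (58, 59), (58, 61), (59, 60), (59, 61), (59, 68), (60, 61), (60, 68), (62, 63), (62, 66), (62, 68), (63, 64), (63, 66), (63, 67), (64, 65), (64, 67), (65, 66), (65, 67), (65, 68), (66, 67), (66, 68)]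

/-- four roots -/
def Rt : List ℕ := [1, 65, 41, 14]

/-- for every vertex that is not a root, four paths to the four roots -/
def Fan : List (ℕ × List (List ℕ)) := [(0, [[1], [4, 18, 16, 64, 65], [22, 23, 68, 41], [2, 3, 9, 8, 14]]),
  (2, [[1], [4, 18, 16, 64, 65], [0, 22, 23, 68, 41], [3, 9, 8, 14]]),
  (3, [[1], [4, 18, 16, 64, 65], [2, 0, 22, 23, 68, 41], [9, 8, 14]]),
  (4, [[2, 1], [18, 16, 64, 65], [0, 22, 23, 68, 41], [3, 9, 8, 14]]),
  (5, [[9, 3, 1], [34, 35, 68, 65], [6, 40, 41], [7, 8, 14]]),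
  (6, [[7, 9, 3, 1], [5, 34, 35, 68, 65], [40, 41], [8, 14]]),
  (7, [[9, 3, 1], [5, 34, 35, 68, 65], [6, 40, 41], [8, 14]]),
  (8, [[9, 3, 1], [7, 5, 34, 35, 68, 65], [6, 40, 41], [14]]),
  (9, [[3, 1], [5, 34, 35, 68, 65], [7, 6, 40, 41], [8, 14]]),
  (10, [[12, 13, 19, 18, 4, 0, 1], [11, 52, 53, 68, 65], [46, 47, 41], [14]]),
  (11, [[13, 19, 18, 4, 0, 1], [52, 53, 68, 65], [10, 46, 47, 41], [12, 14]]),
  (12, [[13, 19, 18, 4, 0, 1], [11, 52, 53, 68, 65], [10, 46, 47, 41], [14]]),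
  (13, [[11, 52, 53, 68, 29, 28, 1], [19, 15, 16, 64, 65], [12, 10, 46, 47, 41], [14]]),
  (15, [[17, 18, 4, 0, 1], [16, 64, 65], [58, 59, 68, 41], [19, 13, 14]]),
  (16, [[18, 4, 0, 1], [64, 65], [15, 58, 59, 68, 41], [17, 19, 13, 14]]),
  (17, [[18, 4, 0, 1], [16, 64, 65], [15, 58, 59, 68, 41], [19, 13, 14]]),
  (18, [[4, 0, 1], [16, 64, 65], [17, 15, 58, 59, 68, 41], [19, 13, 14]]),
  (19, [[18, 4, 0, 1], [17, 16, 64, 65], [15, 58, 59, 68, 41], [13, 14]]),
  (20, [[26, 27, 28, 1], [24, 23, 65], [68, 41], [21, 22, 0, 2, 3, 9, 8, 14]]),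
  (21, [[20, 26, 27, 28, 1], [25, 23, 65], [24, 68, 41], [22, 0, 2, 3, 9, 8, 14]]),
  (22, [[21, 20, 26, 27, 28, 1], [23, 65], [25, 24, 68, 41], [0, 2, 3, 9, 8, 14]]),
  (23, [[24, 20, 26, 27, 28, 1], [65], [68, 41], [22, 0, 2, 3, 9, 8, 14]]),
  (24, [[20, 26, 27, 28, 1], [23, 65], [68, 41], [21, 22, 0, 2, 3, 9, 8, 14]]),
  (25, [[21, 20, 26, 27, 28, 1], [23, 65], [24, 68, 41], [22, 0, 2, 3, 9, 8, 14]]),
  (26, [[27, 28, 1], [20, 24, 23, 65], [68, 41], [30, 29, 35, 34, 5, 6, 8, 14]]),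
  (27, [[28, 1], [26, 20, 24, 23, 65], [30, 68, 41], [31, 29, 35, 34, 5, 6, 8, 14]]),
  (28, [[1], [27, 26, 20, 24, 23, 65], [31, 30, 68, 41], [29, 35, 34, 5, 6, 8, 14]]),
  (29, [[28, 1], [30, 26, 20, 24, 23, 65], [68, 41], [35, 34, 5, 6, 8, 14]]),
  (30, [[27, 28, 1], [26, 20, 24, 23, 65], [68, 41], [29, 35, 34, 5, 6, 8, 14]]),
  (31, [[28, 1], [27, 26, 20, 24, 23, 65], [30, 68, 41], [29, 35, 34, 5, 6, 8, 14]]),
  (32, [[36, 35, 29, 28, 1], [68, 65], [38, 42, 41], [33, 34, 5, 6, 8, 14]]),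
  (33, [[37, 35, 29, 28, 1], [36, 68, 65], [32, 38, 42, 41], [34, 5, 6, 8, 14]]),
  (34, [[35, 29, 28, 1], [37, 36, 68, 65], [33, 32, 38, 42, 41], [5, 6, 8, 14]]),
  (35, [[29, 28, 1], [68, 65], [36, 32, 38, 42, 41], [34, 5, 6, 8, 14]]),
  (36, [[35, 29, 28, 1], [68, 65], [32, 38, 42, 41], [33, 34, 5, 6, 8, 14]]),
  (37, [[35, 29, 28, 1], [36, 68, 65], [33, 32, 38, 42, 41], [34, 5, 6, 8, 14]]),
  (38, [[32, 36, 35, 29, 28, 1], [68, 65], [42, 41], [39, 40, 6, 8, 14]]),
  (39, [[38, 32, 36, 35, 29, 28, 1], [42, 68, 65], [43, 41], [40, 6, 8, 14]]),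
  (40, [[39, 38, 32, 36, 35, 29, 28, 1], [43, 42, 68, 65], [41], [6, 8, 14]]),
  (42, [[38, 32, 36, 35, 29, 28, 1], [68, 65], [41], [39, 40, 6, 8, 14]]),
  (43, [[39, 38, 32, 36, 35, 29, 28, 1], [42, 68, 65], [41], [40, 6, 8, 14]]),
  (44, [[50, 51, 52, 11, 13, 19, 18, 4, 0, 1], [68, 65], [48, 47, 41], [45, 46, 10, 14]]),
  (45, [[44, 50, 51, 52, 11, 13, 19, 18, 4, 0, 1], [48, 68, 65], [49, 47, 41], [46, 10, 14]]),
  (46, [[45, 44, 50, 51, 52, 11, 13, 19, 18, 4, 0, 1], [49, 48, 68, 65], [47, 41], [10, 14]]),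
  (47, [[48, 44, 50, 51, 52, 11, 13, 19, 18, 4, 0, 1], [68, 65], [41], [46, 10, 14]]),
  (48, [[44, 50, 51, 52, 11, 13, 19, 18, 4, 0, 1], [68, 65], [47, 41], [45, 46, 10, 14]]),
  (49, [[45, 44, 50, 51, 52, 11, 13, 19, 18, 4, 0, 1], [48, 68, 65], [47, 41], [46, 10, 14]]),
  (50, [[54, 53, 59, 58, 15, 16, 18, 4, 0, 1], [68, 65], [44, 45, 46, 47, 41], [51, 52, 11, 10, 14]]),
  (51, [[55, 53, 59, 58, 15, 16, 18, 4, 0, 1], [54, 68, 65], [50, 44, 48, 47, 41], [52, 11, 10, 14]]),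
  (52, [[53, 59, 58, 15, 16, 18, 4, 0, 1], [55, 54, 68, 65], [51, 50, 44, 48, 47, 41], [11, 10, 14]]),
  (53, [[68, 29, 28, 1], [59, 58, 15, 16, 64, 65], [54, 50, 44, 48, 47, 41], [52, 11, 10, 14]]),
  (54, [[53, 59, 58, 15, 16, 18, 4, 0, 1], [68, 65], [50, 44, 48, 47, 41], [51, 52, 11, 10, 14]]),
  (55, [[53, 59, 58, 15, 16, 18, 4, 0, 1], [54, 68, 65], [51, 50, 44, 48, 47, 41], [52, 11, 10, 14]]),
  (56, [[57, 58, 15, 19, 18, 4, 0, 1], [62, 66, 65], [68, 41], [60, 59, 53, 52, 11, 13, 14]]),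
  (57, [[58, 15, 16, 18, 4, 0, 1], [56, 62, 63, 64, 65], [60, 68, 41], [61, 59, 53, 52, 11, 10, 14]]),
  (58, [[15, 16, 18, 4, 0, 1], [57, 56, 62, 63, 64, 65], [61, 60, 68, 41], [59, 53, 52, 11, 10, 14]]),
  (59, [[58, 15, 16, 18, 4, 0, 1], [60, 56, 62, 63, 64, 65], [68, 41], [53, 52, 11, 10, 14]]),
  (60, [[57, 58, 15, 19, 18, 4, 0, 1], [56, 62, 66, 65], [68, 41], [59, 53, 52, 11, 13, 14]]),
  (61, [[58, 15, 19, 18, 4, 0, 1], [57, 56, 62, 66, 65], [60, 68, 41], [59, 53, 52, 11, 13, 14]]),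
  (62, [[63, 64, 16, 18, 4, 0, 1], [66, 65], [68, 41], [56, 57, 58, 15, 19, 13, 14]]),
  (63, [[64, 16, 18, 4, 0, 1], [67, 65], [66, 68, 41], [62, 56, 57, 58, 15, 19, 13, 14]]),
  (64, [[16, 18, 4, 0, 1], [65], [67, 66, 68, 41], [63, 62, 56, 57, 58, 15, 19, 13, 14]]),
  (66, [[63, 64, 16, 18, 4, 0, 1], [65], [68, 41], [62, 56, 57, 58, 15, 19, 13, 14]]),
  (67, [[64, 16, 18, 4, 0, 1], [65], [66, 68, 41], [63, 62, 56, 57, 58, 15, 19, 13, 14]]),
  (68, [[29, 28, 1], [65], [41], [47, 46, 10, 14]])]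

/-- for every two roots, the inner vertices of four paths -/
def Prs : List (ℕ × ℕ × List (List ℕ)) := [(1, 65, [[0, 22, 23], [2, 4, 18, 16, 64], [3, 9, 8, 14, 13, 19, 15, 58, 57, 56, 62, 66], [28, 29, 68]]),
  (1, 41, [[0, 22, 23, 68], [2, 4, 18, 19, 13, 11, 10, 46, 47], [3, 9, 5, 6, 40], [28, 29, 35, 36, 32, 38, 42]]),
  (1, 14, [[0, 22, 23, 65, 64, 16, 15, 58, 59, 53, 52, 11, 12], [2, 4, 18, 19, 13], [3, 9, 8], [28, 29, 68, 47, 46, 10]]),
  (65, 41, [[23, 22, 0, 1, 28, 29, 35, 36, 32, 38, 42], [64, 16, 18, 4, 3, 9, 5, 6, 40], [66, 62, 56, 57, 58, 15, 19, 13, 11, 10, 46, 47], [68]]),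
  (65, 14, [[23, 22, 0, 1, 3, 9, 8], [64, 16, 15, 19, 13], [66, 62, 56, 60, 59, 53, 52, 11, 12], [68, 47, 46, 10]]),
  (41, 14, [[40, 6, 8], [42, 38, 32, 33, 34, 5, 9, 3, 4, 18, 19, 13], [47, 46, 10], [68, 53, 52, 11, 12]])]

/-- adjacency test -/
def adjb (a b : ℕ) : Bool := Nat.testBit MM (69 * a + b)

/-- the slot `k` of the neighbour list of `a` -/
def nbk (a k : ℕ) : ℕ := (NB >>> (35 * a + 7 * k)) % 128

/-- neighbour list of `a` -/
def nbl (a : ℕ) : List ℕ := [nbk a 0, nbk a 1, nbk a 2, nbk a 3, nbk a 4]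

/-- first coordinate -/
def cx (a : ℕ) : ℕ := (BX >>> (11 * a)) % 2048

/-- second coordinate -/
def cy (a : ℕ) : ℕ := (BY >>> (11 * a)) % 2048

/-- positive part of the orientation determinant -/
def pp (a b c : ℕ) : ℕ := cx a * cy b + cx b * cy c + cx c * cy a

/-- negative part of the orientation determinant -/
def nn (a b c : ℕ) : ℕ := cy a * cx b + cy b * cx c + cy c * cx a

/-- `c` lies to the left of the line from `a` to `b` -/
def lf (a b c : ℕ) : Bool := Nat.blt (nn a b c) (pp a b c)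

/-- `c` lies to the right of the line from `a` to `b` -/
def rt (a b c : ℕ) : Bool := Nat.blt (pp a b c) (nn a b c)

/-- the segments of the edges `(a,b)` and `(c,d)` are equal or meet only in a common end -/
def prOK (a b c d : ℕ) : Bool :=
  (Nat.beq a c && Nat.beq b d) ||
  (Nat.beq a c && (lf a b d || rt a b d)) ||
  (Nat.beq a d && (lf a b c || rt a b c)) ||
  (Nat.beq b c && (lf b a d || rt b a d)) ||
  (Nat.beq b d && (lf b a c || rt b a c)) ||
  (lf a b c && lf a b d) || (rt a b c && rt a b d) ||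
  (lf c d a && lf c d b) || (rt c d a && rt c d b)

theorem symChk : ((List.range 69).all fun a => (List.range 69).all fun b =>
    (!(adjb a b)) || (adjb b a && !(Nat.beq a b))) = true := by decide +kernel

theorem covChk : ((List.range 69).all fun a => (List.range 69).all fun b =>
    (!(adjb a b)) || (El.any fun e => (Nat.beq e.1 a && Nat.beq e.2 b) || (Nat.beq e.1 b && Nat.beq e.2 a))) = true := by
  decide +kernel

theorem prChk : (El.all fun e => El.all fun f => prOK e.1 e.2 f.1 f.2) = true := by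
  decide +kernel

theorem vtChk : (El.all fun e => (List.range 69).all fun c =>
    Nat.beq c e.1 || Nat.beq c e.2 || lf e.1 e.2 c || rt e.1 e.2 c) = true := by
  decide +kernel

theorem injChk : ((List.range 69).all fun a => (List.range 69).all fun b =>
    Nat.beq a b || !(Nat.beq (cx a) (cx b) && Nat.beq (cy a) (cy b))) = true := by
  decide +kernel

theorem nbChk : ((List.range 68).all fun a => (List.range 68).all fun b =>
    (!(adjb a b)) || (nbl a).any fun c => Nat.beq c b) = true := by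
  decide +kernel

/-- no closed walk of length seven with distinct vertices -/
def chk7 : Bool :=
  (List.range 68).all fun a0 => (nbl a0).all fun a1 => (Nat.beq a1 a0) ||
  (nbl a1).all fun a2 => (Nat.beq a2 a1 || Nat.beq a2 a0) ||
  (nbl a2).all fun a3 => (Nat.beq a3 a2 || (Nat.beq a3 a1 || Nat.beq a3 a0)) ||
  (nbl a3).all fun a4 => (Nat.beq a4 a3 || (Nat.beq a4 a2 || (Nat.beq a4 a1 || Nat.beq a4 a0))) ||
  (nbl a4).all fun a5 => (Nat.beq a5 a4 || (Nat.beq a5 a3 || (Nat.beq a5 a2 || (Nat.beq a5 a1 || Nat.beq a5 a0)))) ||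
  (nbl a5).all fun a6 => (Nat.beq a6 a5 || (Nat.beq a6 a4 || (Nat.beq a6 a3 || (Nat.beq a6 a2 || (Nat.beq a6 a1 || Nat.beq a6 a0))))) ||
    !(adjb a6 a0)

end Pool.Agent.U170.B7
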