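import Mathlib
import Pool.Agent.U170.B7.T
import Pool.Agent.U170.B7.Defs

set_option maxRecDepth 100000

namespace Pool.Agent.U170.B7

/-- `a :: l` is a walk -/
def chn : ℕ → List ℕ → Bool
  | _, [] => true
  | a, b :: l => (Nat.blt b 69 && adjb a b) && chn b l

/-- the last vertex of `a :: l` -/
def lst : ℕ → List ℕ → ℕ
  | a, [] => a
  | _, b :: l => lst b l

/-- membership test -/
def mem (x : ℕ) (l : List ℕ) : Bool := l.any fun y => Nat.beq y x

/-- disjointness test -/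
def dsj (l l' : List ℕ) : Bool := l.all fun x => !(mem x l')

/-- four pairwise disjoint lists of small numbers -/
def four (l0 l1 l2 l3 : List ℕ) : Bool :=
  ((dsj l0 l1 && dsj l0 l2) && (dsj l0 l3 && dsj l1 l2)) && (dsj l1 l3 && dsj l2 l3)

/-- the data of a fan -/
def fanOK (u : ℕ) : List (List ℕ) → Bool
  | [l0, l1, l2, l3] => ((chn u l0 && chn u l1) && (chn u l2 && chn u l3)) &&
      (((mem (lst u l0) Rt && mem (lst u l1) Rt) && (mem (lst u l2) Rt && mem (lst u l3) Rt)) &&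
      four l0 l1 l2 l3)
  | _ => false

/-- the data of a pair -/
def pairOK (u w : ℕ) : List (List ℕ) → Bool
  | [l0, l1, l2, l3] => ((chn u (l0 ++ [w]) && chn u (l1 ++ [w])) && (chn u (l2 ++ [w]) && chn u (l3 ++ [w]))) &&
      four l0 l1 l2 l3
  | _ => false

theorem fanChk : ((List.range 69).all fun u => mem u Rt ||
    Fan.any fun e => Nat.beq e.1 u && fanOK e.1 e.2) = true := by decide +kernel

theorem pairChk : (Rt.all fun u => Nat.blt u 69 && Rt.all fun w => Nat.beq u w ||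
    Prs.any fun e => ((Nat.beq e.1 u && Nat.beq e.2.1 w) || (Nat.beq e.1 w && Nat.beq e.2.1 u)) &&
      pairOK e.1 e.2.1 e.2.2) = true := by decide +kernel

theorem mem_iff {x : ℕ} {l : List ℕ} : mem x l = true ↔ x ∈ l := by
  unfold mem
  rw [List.any_eq_true]
  constructor
  · rintro ⟨y, hy, h⟩
    rw [Nat.beq_eq] at h
    exact h ▸ hy
  · intro h
    exact ⟨x, h, by rw [Nat.beq_eq]⟩

theorem dsj_iff {l l' : List ℕ} : dsj l l' = true → ∀ x ∈ l, x ∉ l' := by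
  intro h x hx hx'
  unfold dsj at h
  have := (List.all_eq_true.1 h) x hx
  rw [mem_iff.2 hx'] at this
  simp at this

theorem adjb_symm {a b : ℕ} (ha : a < 69) (hb : b < 69) (h : adjb a b = true) :
    adjb b a = true ∧ a ≠ b := by
  have h1 := (List.all_eq_true.1 symChk) a (List.mem_range.2 ha)
  have h2 := (List.all_eq_true.1 h1) b (List.mem_range.2 hb)
  rw [h] at h2
  simp only [Bool.not_true, Bool.false_or, Bool.and_eq_true, Bool.not_eq_true'] at h2
  refine ⟨h2.1, ?_⟩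
  intro hab
  have h3 := h2.2
  rw [hab, Nat.beq_refl] at h3
  exact absurd h3 (by simp)

/-- one step outside of the set of deleted vertices -/
def stp (T : ℕ → Prop) (a b : ℕ) : Prop := adjb a b = true ∧ a < 69 ∧ b < 69 ∧ ¬ T a ∧ ¬ T b

theorem stp_symm (T : ℕ → Prop) {a b : ℕ} (h : stp T a b) : stp T b a := by
  obtain ⟨h, ha, hb, hTa, hTb⟩ := h
  exact ⟨(adjb_symm ha hb h).1, hb, ha, hTb, hTa⟩

theorem rt_symm (T : ℕ → Prop) {a b : ℕ} (h : Relation.ReflTransGen (stp T) a b) :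
    Relation.ReflTransGen (stp T) b a := by
  induction h with
  | refl => exact Relation.ReflTransGen.refl
  | tail _ hbc ih => exact Relation.ReflTransGen.head (stp_symm T hbc) ih

theorem chain_reach (T : ℕ → Prop) : ∀ (l : List ℕ) (a : ℕ), a < 69 → ¬ T a → chn a l = true →
    (∀ x ∈ l, ¬ T x) → Relation.ReflTransGen (stp T) a (lst a l)
  | [], a, _, _, _, _ => Relation.ReflTransGen.refl
  | b :: l, a, ha, hTa, h, hl => by
    unfold chn at h
    rw [Bool.and_eq_true, Bool.and_eq_true] at h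
    have hb : b < 69 := by
      have := h.1.1
      rwa [Nat.blt_eq] at this
    have hTb : ¬ T b := hl b (List.mem_cons_self)
    have ih := chain_reach T l b hb hTb h.2 (fun x hx => hl x (List.mem_cons_of_mem _ hx))
    exact Relation.ReflTransGen.head ⟨h.1.2, ha, hb, hTa, hTb⟩ ih

theorem lst_append (l : List ℕ) (w : ℕ) : ∀ a, lst a (l ++ [w]) = w := by
  induction l with
  | nil => intro a; rfl
  | cons b l ih => intro a; exact ih b

theorem pigeon (S : Finset (Fin 69)) (hS : S.card ≤ 3) {l0 l1 l2 l3 : List ℕ}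
    (h : four l0 l1 l2 l3 = true) :
    (∀ x ∈ l0, ¬ ∃ h : x < 69, (⟨x, h⟩ : Fin 69) ∈ S) ∨ (∀ x ∈ l1, ¬ ∃ h : x < 69, (⟨x, h⟩ : Fin 69) ∈ S) ∨
    (∀ x ∈ l2, ¬ ∃ h : x < 69, (⟨x, h⟩ : Fin 69) ∈ S) ∨ (∀ x ∈ l3, ¬ ∃ h : x < 69, (⟨x, h⟩ : Fin 69) ∈ S) := by
  by_contra hcon
  push Not at hcon
  obtain ⟨⟨x0, m0, b0, s0⟩, ⟨x1, m1, b1, s1⟩, ⟨x2, m2, b2, s2⟩, ⟨x3, m3, b3, s3⟩⟩ := hcon
  unfold four at h
  simp only [Bool.and_eq_true] at h
  obtain ⟨⟨⟨h01, h02⟩, h03, h12⟩, h13, h23⟩ := h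
  have e01 : x0 ≠ x1 := fun e => dsj_iff h01 x0 m0 (e ▸ m1)
  have e02 : x0 ≠ x2 := fun e => dsj_iff h02 x0 m0 (e ▸ m2)
  have e03 : x0 ≠ x3 := fun e => dsj_iff h03 x0 m0 (e ▸ m3)
  have e12 : x1 ≠ x2 := fun e => dsj_iff h12 x1 m1 (e ▸ m2)
  have e13 : x1 ≠ x3 := fun e => dsj_iff h13 x1 m1 (e ▸ m3)
  have e23 : x2 ≠ x3 := fun e => dsj_iff h23 x2 m2 (e ▸ m3)
  have hsub : ({⟨x0, b0⟩, ⟨x1, b1⟩, ⟨x2, b2⟩, ⟨x3, b3⟩} : Finset (Fin 69)) ⊆ S := by
    intro y hy
    simp only [Finset.mem_insert, Finset.mem_singleton] at hy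
    rcases hy with rfl | rfl | rfl | rfl
    · exact s0
    · exact s1
    · exact s2
    · exact s3
  have hc := Finset.card_le_card hsub
  have h4 : ({⟨x0, b0⟩, ⟨x1, b1⟩, ⟨x2, b2⟩, ⟨x3, b3⟩} : Finset (Fin 69)).card = 4 := by
    rw [Finset.card_insert_of_notMem, Finset.card_insert_of_notMem, Finset.card_insert_of_notMem,
      Finset.card_singleton]
    · simp [Fin.ext_iff, e23]
    · simp [Fin.ext_iff, e12, e13]
    · simp [Fin.ext_iff, e01, e02, e03]
  omega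

theorem root_reach (S : Finset (Fin 69)) (hS : S.card ≤ 3) (u : ℕ) (hu : u < 69)
    (hT : ¬ ∃ h : u < 69, (⟨u, h⟩ : Fin 69) ∈ S) :
    ∃ r ∈ Rt, (¬ ∃ h : r < 69, (⟨r, h⟩ : Fin 69) ∈ S) ∧
      Relation.ReflTransGen (stp fun x => ∃ h : x < 69, (⟨x, h⟩ : Fin 69) ∈ S) u r := by
  have h1 := (List.all_eq_true.1 fanChk) u (List.mem_range.2 hu)
  rw [Bool.or_eq_true] at h1
  rcases h1 with h1 | h1
  · exact ⟨u, mem_iff.1 h1, hT, Relation.ReflTransGen.refl⟩
  · obtain ⟨⟨w, ls⟩, _, h2⟩ := List.any_eq_true.1 h1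
    rw [Bool.and_eq_true, Nat.beq_eq] at h2
    obtain ⟨h3, h4⟩ := h2
    dsimp only at h3 h4
    subst h3
    match ls, h4 with
    | [l0, l1, l2, l3], h4 =>
      unfold fanOK at h4
      simp only [Bool.and_eq_true] at h4
      obtain ⟨⟨⟨c0, c1⟩, c2, c3⟩, ⟨⟨r0, r1⟩, r2, r3⟩, hf⟩ := h4
      have key : ∀ l, chn w l = true → mem (lst w l) Rt = true →
          (∀ x ∈ l, ¬ ∃ h : x < 69, (⟨x, h⟩ : Fin 69) ∈ S) →
          ∃ r ∈ Rt, (¬ ∃ h : r < 69, (⟨r, h⟩ : Fin 69) ∈ S) ∧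
          Relation.ReflTransGen (stp fun x => ∃ h : x < 69, (⟨x, h⟩ : Fin 69) ∈ S) w r := by
        intro l hl hr hx
        refine ⟨lst w l, mem_iff.1 hr, ?_, chain_reach _ l w hu hT hl hx⟩
        have hend : ∀ (l : List ℕ) (a : ℕ), (¬ ∃ h : a < 69, (⟨a, h⟩ : Fin 69) ∈ S) →
            (∀ x ∈ l, ¬ ∃ h : x < 69, (⟨x, h⟩ : Fin 69) ∈ S) →
            ¬ ∃ h : lst a l < 69, (⟨lst a l, h⟩ : Fin 69) ∈ S := by
          intro l
          induction l with
          | nil => intro a ha _; exact ha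
          | cons b l ih =>
            intro a _ hl
            exact ih b (hl b List.mem_cons_self) (fun x hx => hl x (List.mem_cons_of_mem _ hx))
        exact hend l w hT hx
      rcases pigeon S hS hf with hp | hp | hp | hp
      · exact key l0 c0 r0 hp
      · exact key l1 c1 r1 hp
      · exact key l2 c2 r2 hp
      · exact key l3 c3 r3 hp

theorem root_root (S : Finset (Fin 69)) (hS : S.card ≤ 3) (u w : ℕ) (hu : u ∈ Rt) (hw : w ∈ Rt)
    (hTu : ¬ ∃ h : u < 69, (⟨u, h⟩ : Fin 69) ∈ S) (hTw : ¬ ∃ h : w < 69, (⟨w, h⟩ : Fin 69) ∈ S) :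
    Relation.ReflTransGen (stp fun x => ∃ h : x < 69, (⟨x, h⟩ : Fin 69) ∈ S) u w := by
  have h1 := (List.all_eq_true.1 pairChk) u hu
  rw [Bool.and_eq_true, Nat.blt_eq] at h1
  have hw1 := (List.all_eq_true.1 pairChk) w hw
  rw [Bool.and_eq_true, Nat.blt_eq] at hw1
  obtain ⟨hu69, h1⟩ := h1
  have hw69 := hw1.1
  have h2 := (List.all_eq_true.1 h1) w hw
  rw [Bool.or_eq_true] at h2
  rcases h2 with h2 | h2
  · rw [Nat.beq_eq] at h2
    subst h2
    exact Relation.ReflTransGen.refl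
  · obtain ⟨⟨a, b, ls⟩, _, h3⟩ := List.any_eq_true.1 h2
    dsimp only at h3
    rw [Bool.and_eq_true] at h3
    obtain ⟨h4, h5⟩ := h3
    have main : ∀ a b : ℕ, a < 69 → (¬ ∃ h : a < 69, (⟨a, h⟩ : Fin 69) ∈ S) →
        (¬ ∃ h : b < 69, (⟨b, h⟩ : Fin 69) ∈ S) → pairOK a b ls = true →
        Relation.ReflTransGen (stp fun x => ∃ h : x < 69, (⟨x, h⟩ : Fin 69) ∈ S) a b := by
      intro a b ha hTa hTb h5
      match ls, h5 with
      | [l0, l1, l2, l3], h5 =>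
        unfold pairOK at h5
        simp only [Bool.and_eq_true] at h5
        obtain ⟨⟨⟨c0, c1⟩, c2, c3⟩, hf⟩ := h5
        have key : ∀ l, chn a (l ++ [b]) = true →
            (∀ x ∈ l, ¬ ∃ h : x < 69, (⟨x, h⟩ : Fin 69) ∈ S) →
            Relation.ReflTransGen (stp fun x => ∃ h : x < 69, (⟨x, h⟩ : Fin 69) ∈ S) a b := by
          intro l hl hx
          have := chain_reach (fun x => ∃ h : x < 69, (⟨x, h⟩ : Fin 69) ∈ S) (l ++ [b]) a ha hTa hl (by
            intro x hx'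
            rw [List.mem_append, List.mem_singleton] at hx'
            rcases hx' with hx' | rfl
            · exact hx x hx'
            · exact hTb)
          rwa [lst_append] at this
        rcases pigeon S hS hf with hp | hp | hp | hp
        · exact key l0 c0 hp
        · exact key l1 c1 hp
        · exact key l2 c2 hp
        · exact key l3 c3 hp
    simp only [Bool.or_eq_true, Bool.and_eq_true, Nat.beq_eq] at h4
    rcases h4 with ⟨rfl, rfl⟩ | ⟨rfl, rfl⟩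
    · exact main _ _ hu69 hTu hTw h5
    · have := main _ _ hw69 hTw hTu h5
      exact rt_symm _ this

/-- the graph -/
def G69 : SimpleGraph (Fin 69) where
  Adj a b := adjb a.1 b.1 = true
  symm := ⟨fun a b h => (adjb_symm a.2 b.2 h).1⟩
  loopless := ⟨fun a h => (adjb_symm a.2 a.2 h).2 rfl⟩

theorem four_connected : IsFourConnected G69 := by
  refine ⟨by simp, ?_⟩
  intro S hS
  have hex : ∃ x : Fin 69, x ∉ S := by
    by_contra h
    push Not at h
    have : S = Finset.univ := Finset.eq_univ_iff_forall.2 h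
    rw [this] at hS
    simp at hS
  obtain ⟨x0, hx0⟩ := hex
  have lift : ∀ (a b : ℕ), Relation.ReflTransGen (stp fun x => ∃ h : x < 69, (⟨x, h⟩ : Fin 69) ∈ S) a b →
      ∀ (ha : a < 69) (hTa : (⟨a, ha⟩ : Fin 69) ∉ S),
      ∃ (hb : b < 69) (hTb : (⟨b, hb⟩ : Fin 69) ∉ S),
        (G69.induce {x | x ∉ S}).Reachable ⟨⟨a, ha⟩, hTa⟩ ⟨⟨b, hb⟩, hTb⟩ := by
    intro a b hab ha hTa
    induction hab with
    | refl => exact ⟨ha, hTa, SimpleGraph.Reachable.refl _⟩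
    | tail _ hbc ih =>
      obtain ⟨hb, hTb, hr⟩ := ih
      obtain ⟨hadj, _, hc, _, hTc⟩ := hbc
      have hTc' : (⟨_, hc⟩ : Fin 69) ∉ S := fun h => hTc ⟨hc, h⟩
      refine ⟨hc, hTc', hr.trans ?_⟩
      apply SimpleGraph.Adj.reachable
      exact hadj
  refine { preconnected := ?_, nonempty := ⟨⟨x0, hx0⟩⟩ }
  rintro ⟨⟨a, ha⟩, hTa⟩ ⟨⟨b, hb⟩, hTb⟩
  have hTa' : ¬ ∃ h : a < 69, (⟨a, h⟩ : Fin 69) ∈ S := by
    rintro ⟨_, h⟩; exact hTa h
  have hTb' : ¬ ∃ h : b < 69, (⟨b, h⟩ : Fin 69) ∈ S := by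
    rintro ⟨_, h⟩; exact hTb h
  obtain ⟨r, hr, hTr, har⟩ := root_reach S hS a ha hTa'
  obtain ⟨s, hs, hTs, hbs⟩ := root_reach S hS b hb hTb'
  have hrs := root_root S hS r s hr hs hTr hTs
  have hsb := rt_symm _ hbs
  have hab := (har.trans hrs).trans hsb
  obtain ⟨_, _, h⟩ := lift a b hab ha hTa
  exact h

end Pool.Agent.U170.B7
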