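import Mathlib
import Pool.Agent.U170.B7.Defs

namespace Pool.Agent.U170.B7

/-- the orientation determinant -/
noncomputable def ori (p q r : ℝ × ℝ) : ℝ := (q.1 - p.1) * (r.2 - p.2) - (q.2 - p.2) * (r.1 - p.1)

theorem ori_combo (p q r s : ℝ × ℝ) (a b : ℝ) (hab : a + b = 1) :
    ori p q (a • r + b • s) = a * ori p q r + b * ori p q s := by
  have ha : a = 1 - b := by linarith
  subst ha
  simp only [ori, Prod.fst_add, Prod.snd_add, Prod.smul_fst, Prod.smul_snd, smul_eq_mul]
  ring

theorem ori_seg {p q x : ℝ × ℝ} (hx : x ∈ segment ℝ p q) : ori p q x = 0 := by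
  obtain ⟨a, b, ha, hb, hab, rfl⟩ := hx
  rw [ori_combo _ _ _ _ _ _ hab]
  simp [ori]
  right; ring

theorem seg_pos {p q r s x : ℝ × ℝ} (h1 : 0 < ori p q r) (h2 : 0 < ori p q s)
    (hx : x ∈ segment ℝ p q) (hy : x ∈ segment ℝ r s) : False := by
  have h0 := ori_seg hx
  obtain ⟨a, b, ha, hb, hab, rfl⟩ := hy
  rw [ori_combo _ _ _ _ _ _ hab] at h0
  rcases eq_or_lt_of_le ha with h | h
  · have : b = 1 := by linarith
    subst this
    rw [← h] at h0
    linarith
  · have := mul_pos h h1
    have := mul_nonneg hb h2.le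
    linarith

theorem seg_neg {p q r s x : ℝ × ℝ} (h1 : ori p q r < 0) (h2 : ori p q s < 0)
    (hx : x ∈ segment ℝ p q) (hy : x ∈ segment ℝ r s) : False := by
  have h0 := ori_seg hx
  obtain ⟨a, b, ha, hb, hab, rfl⟩ := hy
  rw [ori_combo _ _ _ _ _ _ hab] at h0
  rcases eq_or_lt_of_le ha with h | h
  · have : b = 1 := by linarith
    subst this
    rw [← h] at h0
    linarith
  · have := mul_neg_of_pos_of_neg h h1
    have := mul_nonpos_of_nonneg_of_nonpos hb h2.le
    linarith

theorem seg_share {p q r x : ℝ × ℝ} (h1 : ori p q r ≠ 0)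
    (hx : x ∈ segment ℝ p q) (hy : x ∈ segment ℝ p r) : x = p := by
  have h0 := ori_seg hx
  obtain ⟨a, b, ha, hb, hab, rfl⟩ := hy
  rw [ori_combo _ _ _ _ _ _ hab] at h0
  have hp : ori p q p = 0 := by simp [ori]
  rw [hp] at h0
  have hb0 : b = 0 := by
    have : b * ori p q r = 0 := by linarith
    rcases mul_eq_zero.1 this with h | h
    · exact h
    · exact absurd h h1
  have ha1 : a = 1 := by linarith
  subst hb0; subst ha1
  simp

theorem arc_seg {p q : ℝ × ℝ} (h : p ≠ q) : IsArcBetween (segment ℝ p q) p q := by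
  refine ⟨fun t => (1 - t) • p + t • q, ?_, ?_, ?_, ?_, ?_⟩
  · apply Continuous.continuousOn
    fun_prop
  · intro t _ s _ hts
    by_contra hne
    apply h
    have hts' : (1 - t) • p + t • q = (1 - s) • p + s • q := hts
    have h1 := congrArg Prod.fst hts'
    have h2 := congrArg Prod.snd hts'
    simp only [Prod.fst_add, Prod.snd_add, Prod.smul_fst, Prod.smul_snd, smul_eq_mul] at h1 h2
    have hd : t - s ≠ 0 := sub_ne_zero.2 hne
    apply Prod.ext
    · have : (t - s) * (q.1 - p.1) = 0 := by linarith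
      rcases mul_eq_zero.1 this with h' | h'
      · exact absurd h' hd
      · linarith
    · have : (t - s) * (q.2 - p.2) = 0 := by linarith
      rcases mul_eq_zero.1 this with h' | h'
      · exact absurd h' hd
      · linarith
  · simp
  · simp
  · exact (segment_eq_image ℝ p q).symm

end Pool.Agent.U170.B7
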