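import Mathlib
import Pool.Agent.U170.B7.Geo
import Pool.Agent.U170.B7.Conn

set_option maxRecDepth 100000

namespace Pool.Agent.U170.B7

/-- the point of a vertex -/
noncomputable def pos (a : ℕ) : ℝ × ℝ := ((cx a : ℝ), (cy a : ℝ))

theorem ori_pos (a b c : ℕ) : ori (pos a) (pos b) (pos c) = (pp a b c : ℝ) - (nn a b c : ℝ) := by
  simp only [ori, pos, pp, nn]
  push_cast
  ring

theorem lf_pos {a b c : ℕ} (h : lf a b c = true) : 0 < ori (pos a) (pos b) (pos c) := by
  unfold lf at h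
  rw [Nat.blt_eq] at h
  rw [ori_pos]
  have : (nn a b c : ℝ) < (pp a b c : ℝ) := by exact_mod_cast h
  linarith

theorem rt_neg {a b c : ℕ} (h : rt a b c = true) : ori (pos a) (pos b) (pos c) < 0 := by
  unfold rt at h
  rw [Nat.blt_eq] at h
  rw [ori_pos]
  have : (pp a b c : ℝ) < (nn a b c : ℝ) := by exact_mod_cast h
  linarith

theorem lr_ne {a b c : ℕ} (h : (lf a b c || rt a b c) = true) : ori (pos a) (pos b) (pos c) ≠ 0 := by
  rw [Bool.or_eq_true] at h
  rcases h with h | h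
  · exact (lf_pos h).ne'
  · exact (rt_neg h).ne

theorem pr_sound {a b c d : ℕ} (h : prOK a b c d = true) {x : ℝ × ℝ}
    (hx : x ∈ segment ℝ (pos a) (pos b)) (hy : x ∈ segment ℝ (pos c) (pos d)) :
    (a = c ∧ b = d) ∨ x = pos a ∨ x = pos b := by
  unfold prOK at h
  rw [Bool.or_eq_true, Bool.or_eq_true, Bool.or_eq_true, Bool.or_eq_true, Bool.or_eq_true,
    Bool.or_eq_true, Bool.or_eq_true, Bool.or_eq_true] at h
  rcases h with (((((((h | h) | h) | h) | h) | h) | h) | h) | h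
  · rw [Bool.and_eq_true, Nat.beq_eq, Nat.beq_eq] at h
    exact Or.inl h
  · rw [Bool.and_eq_true, Nat.beq_eq] at h
    obtain ⟨rfl, h⟩ := h
    exact Or.inr (Or.inl (seg_share (lr_ne h) hx hy))
  · rw [Bool.and_eq_true, Nat.beq_eq] at h
    obtain ⟨rfl, h⟩ := h
    rw [segment_symm] at hy
    exact Or.inr (Or.inl (seg_share (lr_ne h) hx hy))
  · rw [Bool.and_eq_true, Nat.beq_eq] at h
    obtain ⟨rfl, h⟩ := h
    rw [segment_symm] at hx
    exact Or.inr (Or.inr (seg_share (lr_ne h) hx hy))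
  · rw [Bool.and_eq_true, Nat.beq_eq] at h
    obtain ⟨rfl, h⟩ := h
    rw [segment_symm] at hx hy
    exact Or.inr (Or.inr (seg_share (lr_ne h) hx hy))
  · rw [Bool.and_eq_true] at h
    exact (seg_pos (lf_pos h.1) (lf_pos h.2) hx hy).elim
  · rw [Bool.and_eq_true] at h
    exact (seg_neg (rt_neg h.1) (rt_neg h.2) hx hy).elim
  · rw [Bool.and_eq_true] at h
    exact (seg_pos (lf_pos h.1) (lf_pos h.2) hy hx).elim
  · rw [Bool.and_eq_true] at h
    exact (seg_neg (rt_neg h.1) (rt_neg h.2) hy hx).elim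

theorem cov {a b : ℕ} (ha : a < 69) (hb : b < 69) (h : adjb a b = true) :
    (a, b) ∈ El ∨ (b, a) ∈ El := by
  have h1 := (List.all_eq_true.1 covChk) a (List.mem_range.2 ha)
  have h2 := (List.all_eq_true.1 h1) b (List.mem_range.2 hb)
  rw [h, Bool.not_true, Bool.false_or] at h2
  obtain ⟨⟨c, d⟩, hm, h3⟩ := List.any_eq_true.1 h2
  simp only [Bool.or_eq_true, Bool.and_eq_true, Nat.beq_eq] at h3
  rcases h3 with ⟨rfl, rfl⟩ | ⟨rfl, rfl⟩
  · exact Or.inl hm
  · exact Or.inr hm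

theorem pr_mem {a b c d : ℕ} (h1 : (a, b) ∈ El) (h2 : (c, d) ∈ El) {x : ℝ × ℝ}
    (hx : x ∈ segment ℝ (pos a) (pos b)) (hy : x ∈ segment ℝ (pos c) (pos d)) :
    (a = c ∧ b = d) ∨ x = pos a ∨ x = pos b := by
  have h3 := (List.all_eq_true.1 prChk) _ h1
  have h4 := (List.all_eq_true.1 h3) _ h2
  exact pr_sound h4 hx hy

theorem pr_all {a b c d : ℕ} (ha : a < 69) (hb : b < 69) (hc : c < 69) (hd : d < 69)
    (h1 : adjb a b = true) (h2 : adjb c d = true) {x : ℝ × ℝ}
    (hx : x ∈ segment ℝ (pos a) (pos b)) (hy : x ∈ segment ℝ (pos c) (pos d)) :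
    (a = c ∧ b = d) ∨ (a = d ∧ b = c) ∨ x = pos a ∨ x = pos b := by
  rcases cov ha hb h1 with e1 | e1 <;> rcases cov hc hd h2 with e2 | e2
  · rcases pr_mem e1 e2 hx hy with h | h | h
    · exact Or.inl h
    · exact Or.inr (Or.inr (Or.inl h))
    · exact Or.inr (Or.inr (Or.inr h))
  · rw [segment_symm] at hy
    rcases pr_mem e1 e2 hx hy with h | h | h
    · exact Or.inr (Or.inl h)
    · exact Or.inr (Or.inr (Or.inl h))
    · exact Or.inr (Or.inr (Or.inr h))
  · rw [segment_symm] at hx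
    rcases pr_mem e1 e2 hx hy with h | h | h
    · exact Or.inr (Or.inl ⟨h.2, h.1⟩)
    · exact Or.inr (Or.inr (Or.inr h))
    · exact Or.inr (Or.inr (Or.inl h))
  · rw [segment_symm] at hx hy
    rcases pr_mem e1 e2 hx hy with h | h | h
    · exact Or.inl ⟨h.2, h.1⟩
    · exact Or.inr (Or.inr (Or.inr h))
    · exact Or.inr (Or.inr (Or.inl h))

theorem vt_mem {a b c : ℕ} (h1 : (a, b) ∈ El) (hc : c < 69) (hx : pos c ∈ segment ℝ (pos a) (pos b)) :
    c = a ∨ c = b := by
  have h3 := (List.all_eq_true.1 vtChk) _ h1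
  have h4 := (List.all_eq_true.1 h3) c (List.mem_range.2 hc)
  dsimp only at h4
  rw [Bool.or_eq_true, Bool.or_eq_true, Bool.or_eq_true, Nat.beq_eq, Nat.beq_eq] at h4
  rcases h4 with ((h4 | h4) | h4) | h4
  · exact Or.inl h4
  · exact Or.inr h4
  · exact absurd (ori_seg hx) (lf_pos h4).ne'
  · exact absurd (ori_seg hx) (rt_neg h4).ne

theorem pos_inj {a b : ℕ} (ha : a < 69) (hb : b < 69) (h : pos a = pos b) : a = b := by
  have h1 := (List.all_eq_true.1 injChk) a (List.mem_range.2 ha)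
  have h2 := (List.all_eq_true.1 h1) b (List.mem_range.2 hb)
  rw [Bool.or_eq_true, Nat.beq_eq] at h2
  rcases h2 with h2 | h2
  · exact h2
  · exfalso
    have e1 : cx a = cx b := by
      have := congrArg Prod.fst h
      simp only [pos] at this
      exact_mod_cast this
    have e2 : cy a = cy b := by
      have := congrArg Prod.snd h
      simp only [pos] at this
      exact_mod_cast this
    rw [e1, e2, Nat.beq_refl, Nat.beq_refl] at h2
    simp at h2

theorem planar : IsPlanar G69 := by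
  refine ⟨fun a => pos a.1, Sym2.lift ⟨fun a b => segment ℝ (pos a.1) (pos b.1),
    fun a b => segment_symm ℝ _ _⟩, ?_, ?_, ?_, ?_⟩
  · intro a b h
    exact Fin.ext (pos_inj a.2 b.2 h)
  · intro a b hab
    rw [Sym2.lift_mk]
    apply arc_seg
    intro h
    exact (adjb_symm a.2 b.2 hab).2 (pos_inj a.2 b.2 h)
  · intro a b c hab hc
    rw [Sym2.lift_mk] at hc
    rcases cov a.2 b.2 hab with h | h
    · rcases vt_mem h c.2 hc with h | h
      · exact Or.inl (Fin.ext h)
      · exact Or.inr (Fin.ext h)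
    · dsimp only at hc
      rw [segment_symm] at hc
      rcases vt_mem h c.2 hc with h | h
      · exact Or.inr (Fin.ext h)
      · exact Or.inl (Fin.ext h)
  · intro a b c d hab hcd hne x hx
    rw [Sym2.lift_mk, Sym2.lift_mk] at hx
    rcases pr_all a.2 b.2 c.2 d.2 hab hcd hx.1 hx.2 with ⟨h1, h2⟩ | ⟨h1, h2⟩ | h | h
    · exact absurd (by rw [Fin.ext h1, Fin.ext h2]) hne
    · exact absurd (by rw [Fin.ext h1, Fin.ext h2]; exact Sym2.eq_swap) hne
    · exact ⟨a, h⟩
    · exact ⟨b, h⟩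

end Pool.Agent.U170.B7
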