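import Pool.Agent.U170.B7.T
namespace Pool.Agent.U170.B7
theorem chk7_true : chk7 = true := by decide +kernel
end Pool.Agent.U170.B7
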