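import Mathlib
import Pool.Agent.U170.B7.T7
import Pool.Agent.U170.B7.Plan

set_option maxRecDepth 100000

namespace Pool.Agent.U170.B7

theorem nb_mem {a b : ℕ} (ha : a < 68) (hb : b < 68) (h : adjb a b = true) : b ∈ nbl a := by
  have h1 := (List.all_eq_true.1 nbChk) a (List.mem_range.2 ha)
  have h2 := (List.all_eq_true.1 h1) b (List.mem_range.2 hb)
  rw [h, Bool.not_true, Bool.false_or] at h2
  obtain ⟨c, hc, h3⟩ := List.any_eq_true.1 h2
  rw [Nat.beq_eq] at h3
  exact h3 ▸ hc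

theorem bq {a b : ℕ} (h : a ≠ b) : Nat.beq a b = false := by
  cases hb : Nat.beq a b with
  | false => rfl
  | true => rw [Nat.beq_eq] at hb; exact absurd hb h

theorem or_res {p q : Bool} (h : (p || q) = true) (hp : p = false) : q = true := by
  rw [hp, Bool.false_or] at h
  exact h

theorem no_seven {a0 a1 a2 a3 a4 a5 a6 : ℕ} (h0 : a0 < 68) (h1 : a1 < 68) (h2 : a2 < 68)
    (h3 : a3 < 68) (h4 : a4 < 68) (h5 : a5 < 68) (h6 : a6 < 68)
    (e01 : adjb a0 a1 = true) (e12 : adjb a1 a2 = true) (e23 : adjb a2 a3 = true)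
    (e34 : adjb a3 a4 = true) (e45 : adjb a4 a5 = true) (e56 : adjb a5 a6 = true)
    (e60 : adjb a6 a0 = true)
    (d10 : a1 ≠ a0) (d20 : a2 ≠ a0) (d21 : a2 ≠ a1) (d30 : a3 ≠ a0) (d31 : a3 ≠ a1) (d32 : a3 ≠ a2)
    (d40 : a4 ≠ a0) (d41 : a4 ≠ a1) (d42 : a4 ≠ a2) (d43 : a4 ≠ a3)
    (d50 : a5 ≠ a0) (d51 : a5 ≠ a1) (d52 : a5 ≠ a2) (d53 : a5 ≠ a3) (d54 : a5 ≠ a4)
    (d60 : a6 ≠ a0) (d61 : a6 ≠ a1) (d62 : a6 ≠ a2) (d63 : a6 ≠ a3) (d64 : a6 ≠ a4) (d65 : a6 ≠ a5) :
    False := by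
  have c := chk7_true
  unfold chk7 at c
  have c0 := (List.all_eq_true.1 c) a0 (List.mem_range.2 h0)
  have c1 := or_res ((List.all_eq_true.1 c0) a1 (nb_mem h0 h1 e01)) (bq d10)
  have c2 := or_res ((List.all_eq_true.1 c1) a2 (nb_mem h1 h2 e12)) (by rw [bq d21, bq d20]; rfl)
  have c3 := or_res ((List.all_eq_true.1 c2) a3 (nb_mem h2 h3 e23))
    (by rw [bq d32, bq d31, bq d30]; rfl)
  have c4 := or_res ((List.all_eq_true.1 c3) a4 (nb_mem h3 h4 e34))
    (by rw [bq d43, bq d42, bq d41, bq d40]; rfl)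
  have c5 := or_res ((List.all_eq_true.1 c4) a5 (nb_mem h4 h5 e45))
    (by rw [bq d54, bq d53, bq d52, bq d51, bq d50]; rfl)
  have c6 := or_res ((List.all_eq_true.1 c5) a6 (nb_mem h5 h6 e56))
    (by rw [bq d65, bq d64, bq d63, bq d62, bq d61, bq d60]; rfl)
  rw [e60] at c6
  exact absurd c6 (by simp)

theorem no_seven_cycle (u : ({x | x ≠ (68 : Fin 69)} : Set (Fin 69)))
    (c : (G69.induce {x | x ≠ (68 : Fin 69)}).Walk u u) (hc : c.IsCycle) : c.length ≠ 7 := by
  intro hl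
  have hinj := hc.getVert_injOn'
  rw [hl] at hinj
  have hadj : ∀ i, i < 7 → adjb (c.getVert i).1.1 (c.getVert (i + 1)).1.1 = true := by
    intro i hi
    exact c.adj_getVert_succ (by rw [hl]; exact hi)
  have hlt : ∀ i, (c.getVert i).1.1 < 68 := by
    intro i
    have h1 := (c.getVert i).2
    have h2 := (c.getVert i).1.2
    have h3 : (c.getVert i).1.1 ≠ 68 := by
      intro h
      apply h1
      exact Fin.ext h
    omega
  have hne : ∀ i j, i < 7 → j < 7 → i ≠ j → (c.getVert i).1.1 ≠ (c.getVert j).1.1 := by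
    intro i j hi hj hij h
    apply hij
    apply hinj
    · show i ≤ 7 - 1
      omega
    · show j ≤ 7 - 1
      omega
    · exact Subtype.ext (Fin.ext h)
  have h7 : c.getVert 7 = c.getVert 0 := by
    rw [SimpleGraph.Walk.getVert_zero, ← hl, SimpleGraph.Walk.getVert_length]
  have e60 : adjb (c.getVert 6).1.1 (c.getVert 0).1.1 = true := by
    have := hadj 6 (by norm_num)
    rwa [h7] at this
  exact no_seven (hlt 0) (hlt 1) (hlt 2) (hlt 3) (hlt 4) (hlt 5) (hlt 6)
    (hadj 0 (by norm_num)) (hadj 1 (by norm_num)) (hadj 2 (by norm_num)) (hadj 3 (by norm_num))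
    (hadj 4 (by norm_num)) (hadj 5 (by norm_num)) e60
    (hne 1 0 (by norm_num) (by norm_num) (by norm_num)) (hne 2 0 (by norm_num) (by norm_num) (by norm_num))
    (hne 2 1 (by norm_num) (by norm_num) (by norm_num)) (hne 3 0 (by norm_num) (by norm_num) (by norm_num))
    (hne 3 1 (by norm_num) (by norm_num) (by norm_num)) (hne 3 2 (by norm_num) (by norm_num) (by norm_num))
    (hne 4 0 (by norm_num) (by norm_num) (by norm_num)) (hne 4 1 (by norm_num) (by norm_num) (by norm_num))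
    (hne 4 2 (by norm_num) (by norm_num) (by norm_num)) (hne 4 3 (by norm_num) (by norm_num) (by norm_num))
    (hne 5 0 (by norm_num) (by norm_num) (by norm_num)) (hne 5 1 (by norm_num) (by norm_num) (by norm_num))
    (hne 5 2 (by norm_num) (by norm_num) (by norm_num)) (hne 5 3 (by norm_num) (by norm_num) (by norm_num))
    (hne 5 4 (by norm_num) (by norm_num) (by norm_num)) (hne 6 0 (by norm_num) (by norm_num) (by norm_num))
    (hne 6 1 (by norm_num) (by norm_num) (by norm_num)) (hne 6 2 (by norm_num) (by norm_num) (by norm_num))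
    (hne 6 3 (by norm_num) (by norm_num) (by norm_num)) (hne 6 4 (by norm_num) (by norm_num) (by norm_num))
    (hne 6 5 (by norm_num) (by norm_num) (by norm_num))

end Pool.Agent.U170.B7
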